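import Pool.Agent.N684.HI.E

/-! Clique inflations of perfect graphs (the replication lemma), and colourings of subsets. -/

set_option autoImplicit false

namespace N684.HS

open Finset N684.HI

/-- `G` is the clique inflation of `B` given by `π`. -/
def Inf {V W : Type} (G : SimpleGraph V) (B : SimpleGraph W) (π : V → W) : Prop :=
  ∀ x y, G.Adj x y ↔ x ≠ y ∧ (π x = π y ∨ B.Adj (π x) (π y))

/-- every finite clique inflation `G` of `B` satisfies `had₂(G) ≥ χ(G)` -/
def Good {W : Type} (B : SimpleGraph W) : Prop :=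
  ∀ (V : Type) [Finite V] (G : SimpleGraph V) (π : V → W), Inf G B π →
    ∀ k : ℕ, ¬ G.Colorable k → SM G (k + 1)

/-- the set `S` can be properly coloured with the colours `0, ..., k - 1` -/
def ColIn {V : Type} (G : SimpleGraph V) (S : Set V) (k : ℕ) : Prop :=
  ∃ κ : V → ℕ, (∀ x ∈ S, κ x < k) ∧ ∀ x ∈ S, ∀ y ∈ S, G.Adj x y → κ x ≠ κ y

open Classical in
lemma colIn_iff {V : Type} (G : SimpleGraph V) (S : Set V) (k : ℕ) :
    (G.induce S).Colorable k ↔ ColIn G S k := by
  constructor
  · rintro ⟨γ⟩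
    refine ⟨fun x => if h : x ∈ S then (γ ⟨x, h⟩).1 else 0, ?_, ?_⟩
    · intro x hx
      simp only [hx, dif_pos]
      exact (γ ⟨x, hx⟩).2
    · intro x hx y hy hxy h
      simp only [hx, hy, dif_pos] at h
      exact γ.valid (v := ⟨x, hx⟩) (w := ⟨y, hy⟩) (by simpa using hxy) (Fin.ext h)
  · rintro ⟨κ, h1, h2⟩
    refine ⟨SimpleGraph.Coloring.mk (fun x => (⟨κ x.1, h1 x.1 x.2⟩ : Fin k)) ?_⟩
    intro x y hxy h
    exact h2 x.1 x.2 y.1 y.2 (by simpa using hxy) (by simpa using h)

lemma colorable_of_colIn {V : Type} (G : SimpleGraph V) (k : ℕ)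
    (h : ColIn G Set.univ k) : G.Colorable k := by
  obtain ⟨κ, h1, h2⟩ := h
  refine ⟨SimpleGraph.Coloring.mk (fun x => (⟨κ x, h1 x trivial⟩ : Fin k)) ?_⟩
  intro x y hxy h
  exact h2 x trivial y trivial hxy (by simpa using h)

/-- every subset with chromatic number larger than `k` contains a clique with `k + 1` vertices -/
def Perf {W : Type} (B : SimpleGraph W) : Prop :=
  ∀ (S : Set W) (k : ℕ), ¬ (B.induce S).Colorable k →
    ∃ Q : Finset W, (∀ u ∈ Q, u ∈ S) ∧ (∀ u ∈ Q, ∀ v ∈ Q, u ≠ v → B.Adj u v) ∧ Q.card = k + 1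

open Classical in
/-- the replication lemma for all clique inflations -/
theorem replic {V W : Type} (G : SimpleGraph V) (B : SimpleGraph W) (π : V → W)
    (hI : Inf G B π) (hB : Perf B) : ∀ (S : Finset V) (k : ℕ), ¬ ColIn G S k →
      ∃ Q : Finset V, Q ⊆ S ∧ (∀ u ∈ Q, ∀ v ∈ Q, u ≠ v → G.Adj u v) ∧ Q.card = k + 1 := by
  intro S
  induction S using Finset.strongInduction with
  | H S ih =>
  intro k hk
  by_cases hinj : Set.InjOn π S
  · -- an induced subgraph of `B`
    have h1 : ¬ (B.induce (π '' S)).Colorable k := by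
      intro h
      apply hk
      obtain ⟨κ, h1, h2⟩ := (colIn_iff _ _ _).1 h
      refine ⟨fun x => κ (π x), fun x hx => h1 _ ⟨x, hx, rfl⟩, fun x hx y hy hxy => ?_⟩
      have h3 := (hI x y).1 hxy
      apply h2 _ ⟨x, hx, rfl⟩ _ ⟨y, hy, rfl⟩
      rcases h3.2 with h | h
      · exact absurd (hinj hx hy h) h3.1
      · exact h
    obtain ⟨Q, hQ1, hQ2, hQ3⟩ := hB _ _ h1
    refine ⟨S.filter (fun x => π x ∈ Q), Finset.filter_subset _ _, ?_, ?_⟩
    · intro u hu v hv huv
      rw [Finset.mem_filter] at hu hv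
      refine (hI u v).2 ⟨huv, Or.inr (hQ2 _ hu.2 _ hv.2 ?_)⟩
      exact fun h => huv (hinj hu.1 hv.1 h)
    · rw [← hQ3]
      refine Finset.card_bij (fun x _ => π x) ?_ ?_ ?_
      · intro x hx
        exact (Finset.mem_filter.1 hx).2
      · intro x hx y hy h
        exact hinj (Finset.mem_filter.1 hx).1 (Finset.mem_filter.1 hy).1 h
      · intro q hq
        obtain ⟨x, hx, rfl⟩ := hQ1 q hq
        exact ⟨x, Finset.mem_filter.2 ⟨hx, hq⟩, rfl⟩
  · -- two twins `x`, `y`
    unfold Set.InjOn at hinj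
    push Not at hinj
    obtain ⟨x, hx, y, hy, hxy, hne⟩ := hinj
    have hx' : x ∈ S := hx
    have hy' : y ∈ S := hy
    have hadj : G.Adj x y := (hI x y).2 ⟨hne, Or.inl hxy⟩
    have htw : ∀ z, z ≠ x → z ≠ y → (G.Adj x z ↔ G.Adj y z) := by
      intro z hzx hzy
      rw [hI, hI, hxy]
      constructor
      · rintro ⟨_, h⟩; exact ⟨hzy.symm, h⟩
      · rintro ⟨_, h⟩; exact ⟨hzx.symm, h⟩
    by_contra hno
    push Not at hno
    have hcol : ColIn G (S.erase y : Finset V) k := by
      by_contra h
      obtain ⟨Q, h1, h2, h3⟩ := ih (S.erase y) (Finset.erase_ssubset hy') k h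
      exact hno Q (h1.trans (Finset.erase_subset _ _)) h2 h3
    obtain ⟨γ, hγ1, hγ2⟩ := hcol
    have hxe : x ∈ (S.erase y : Finset V) := Finset.mem_erase.2 ⟨hne, hx'⟩
    have hkpos : 0 < k := lt_of_le_of_lt (Nat.zero_le _) (hγ1 x hxe)
    set H : Finset V := (S.erase y).filter (fun z => γ z ≠ γ x ∨ z = x) with hH
    have hHS : H ⊂ S := lt_of_le_of_lt (Finset.filter_subset _ _) (Finset.erase_ssubset hy')
    have hcolH : ColIn G (H : Finset V) (k - 1) := by
      by_contra h
      obtain ⟨Q, h1, h2, h3⟩ := ih H hHS (k - 1) h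
      rw [Nat.sub_add_cancel hkpos] at h3
      have hQS : ∀ q ∈ Q, q ∈ (S.erase y : Finset V) := fun q hq => (Finset.mem_filter.1 (h1 hq)).1
      have hinj' : Set.InjOn γ Q := by
        intro a ha b hb hab
        by_contra hne'
        exact hγ2 a (hQS a ha) b (hQS b hb) (h2 a ha b hb hne') hab
      have himg : Q.image γ = Finset.range k := by
        apply Finset.eq_of_subset_of_card_le
        · intro c hc
          obtain ⟨q, hq, rfl⟩ := Finset.mem_image.1 hc
          exact Finset.mem_range.2 (hγ1 q (hQS q hq))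
        · rw [Finset.card_image_of_injOn hinj', h3, Finset.card_range]
      have hxQ : x ∈ Q := by
        have : γ x ∈ Q.image γ := by rw [himg]; exact Finset.mem_range.2 (hγ1 x hxe)
        obtain ⟨q, hq, hqx⟩ := Finset.mem_image.1 this
        rcases (Finset.mem_filter.1 (h1 hq)).2 with h4 | h4
        · exact absurd hqx h4
        · rwa [← h4]
      have hyQ : y ∉ Q := fun h => (Finset.mem_erase.1 (hQS y h)).1 rfl
      have hyadj : ∀ q ∈ Q, G.Adj y q := by
        intro q hq
        by_cases hqx : q = x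
        · rw [hqx]; exact hadj.symm
        · exact (htw q hqx (fun h => hyQ (h ▸ hq))).1 (h2 x hxQ q hq (Ne.symm hqx))
      refine hno (insert y Q) ?_ ?_ ?_
      · intro q hq
        rcases Finset.mem_insert.1 hq with h | h
        · rw [h]; exact hy'
        · exact Finset.mem_of_mem_erase (hQS q h)
      · intro u hu v hv huv
        rcases Finset.mem_insert.1 hu with h | h <;> rcases Finset.mem_insert.1 hv with h' | h'
        · exact absurd (h.trans h'.symm) huv
        · rw [h]; exact hyadj v h'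
        · rw [h']; exact (hyadj u h).symm
        · exact h2 u h v h' huv
      · rw [Finset.card_insert_of_notMem hyQ, h3]
    obtain ⟨η, hη1, hη2⟩ := hcolH
    apply hk
    refine ⟨fun z => if z ∈ H then η z else k - 1, ?_, ?_⟩
    · intro z hz
      dsimp only
      split_ifs with h
      · have := hη1 z h; omega
      · omega
    · have hout : ∀ z ∈ S, z ∉ H → z = y ∨ (z ≠ y ∧ z ≠ x ∧ γ z = γ x) := by
        intro z hz hzH
        by_cases hzy : z = y
        · exact Or.inl hzy
        · right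
          refine ⟨hzy, ?_, ?_⟩
          · intro h
            exact hzH (Finset.mem_filter.2 ⟨Finset.mem_erase.2 ⟨hzy, hz⟩, Or.inr h⟩)
          · by_contra h
            exact hzH (Finset.mem_filter.2 ⟨Finset.mem_erase.2 ⟨hzy, hz⟩, Or.inl h⟩)
      intro a ha b hb hab
      have ha' : a ∈ S := ha
      have hb' : b ∈ S := hb
      by_cases haH : a ∈ H <;> by_cases hbH : b ∈ H
      · simp only [haH, hbH, if_true]
        exact hη2 a haH b hbH hab
      · simp only [haH, hbH, if_true, if_false]
        have := hη1 a haH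
        omega
      · simp only [haH, hbH, if_true, if_false]
        have := hη1 b hbH
        omega
      · exfalso
        have key : ∀ z, z ≠ y → z ≠ x → z ∈ S → γ z = γ x → ¬ G.Adj y z := by
          intro z hzy hzx hzS hzγ h
          have h5 : G.Adj x z := (htw z hzx hzy).2 h
          exact hγ2 x hxe z (Finset.mem_erase.2 ⟨hzy, hzS⟩) h5 hzγ.symm
        rcases hout a ha' haH with h | ⟨h1, h2, h3⟩ <;> rcases hout b hb' hbH with h' | ⟨h1', h2', h3'⟩
        · exact hab.ne (h.trans h'.symm)
        · rw [h] at hab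
          exact key b h1' h2' hb' h3' hab
        · rw [h'] at hab
          exact key a h1 h2 ha' h3 hab.symm
        · exact hγ2 a (Finset.mem_erase.2 ⟨h1, ha'⟩) b (Finset.mem_erase.2 ⟨h1', hb'⟩) hab
            (h3.trans h3'.symm)

theorem good_of_perf {W : Type} (B : SimpleGraph W) (hB : Perf B) : Good B := by
  intro V _ G π hI k hk
  have := Fintype.ofFinite V
  have h1 : ¬ ColIn G ((Finset.univ : Finset V) : Set V) k := by
    rw [Finset.coe_univ]
    exact fun h => hk (colorable_of_colIn G k h)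
  obtain ⟨Q, -, h2, h3⟩ := replic G B π hI hB Finset.univ k h1
  exact minor_of_clique G Q h2 (k + 1) h3.ge

theorem good_of_p2 {W : Type} (B : SimpleGraph W) (hB : P2 B) : Good B := by
  intro V _ G π hI k hk
  have := Fintype.ofFinite V
  refine hadwiger_aux _ V W G (B.comap π) π rfl ⟨?_, ?_, ?_⟩ k hk
  · intro a b c d hab hcd
    exact hB _ _ _ _ hab hcd
  · intro x y z hxy hxz
    show B.Adj (π y) (π z)
    rw [← hxy]
    exact hxz
  · intro x y
    rw [hI]
    rfl

end N684.HS
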