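import Pool.Agent.N684.HS.A

/-! Substitution preserves goodness. -/

set_option autoImplicit false

namespace N684.HS

open Finset N684.HI

open Classical in
/-- a set with at most two elements inducing a connected graph is a vertex or an edge -/
lemma small_connected {V : Type} (G : SimpleGraph V) (S : Set V) (h2 : S.encard ≤ 2)
    (hc : (G.induce S).Connected) : ∃ a b : V, S = {a, b} ∧ (a = b ∨ G.Adj a b) := by
  obtain ⟨⟨a, ha⟩⟩ := hc.nonempty
  by_cases h : ∃ b ∈ S, b ≠ a
  · obtain ⟨b, hb, hba⟩ := h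
    have hS : S = {a, b} := by
      have hsub : ({a, b} : Set V) ⊆ S := by
        rintro x (rfl | hx)
        · exact ha
        · rw [Set.mem_singleton_iff] at hx
          rw [hx]; exact hb
      refine (Set.Finite.eq_of_subset_of_encard_le (Set.toFinite {a, b}) hsub ?_).symm
      rw [Set.encard_pair (Ne.symm hba)]
      exact h2
    refine ⟨a, b, hS, Or.inr ?_⟩
    obtain ⟨w⟩ := hc.preconnected ⟨a, ha⟩ ⟨b, hb⟩
    cases w with
    | nil => exact absurd rfl hba
    | cons h p =>
      rename_i v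
      have hv : v.1 ∈ ({a, b} : Set V) := by rw [← hS]; exact v.2
      have hav : G.Adj a v.1 := h
      rcases hv with hv | hv
      · exact absurd hv hav.ne.symm
      · rw [Set.mem_singleton_iff] at hv
        rwa [hv] at hav
  · push Not at h
    refine ⟨a, a, ?_, Or.inl rfl⟩
    ext x
    constructor
    · intro hx
      exact Or.inl (h x hx)
    · rintro (hx | hx)
      · rw [hx]; exact ha
      · rw [Set.mem_singleton_iff] at hx
        rw [hx]; exact ha

section lift
variable {V V' W : Type} (G : SimpleGraph V) (G' : SimpleGraph V') (B : SimpleGraph W)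
  (π : V' → W) (φ : V' → Set V)

open Classical in
/-- small clique minors of the inflated graph give small clique minors of the substituted one -/
lemma lift_sm (hI : Inf G' B π) (hs : ∀ p, (φ p).encard ≤ 2)
    (hc : ∀ p, (G.induce (φ p)).Connected)
    (hd : ∀ p q, p ≠ q → Disjoint (φ p) (φ q))
    (hsame : ∀ p q, p ≠ q → π p = π q → ∃ u ∈ φ p, ∃ v ∈ φ q, G.Adj u v)
    (hdiff : ∀ p q, B.Adj (π p) (π q) → ∀ u ∈ φ p, ∀ v ∈ φ q, G.Adj u v)
    (t : ℕ) (h : SM G' t) : SM G t := by
  obtain ⟨g, hg2, hgc, hgd, hga⟩ := h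
  have hne : ∀ p, ∃ u, u ∈ φ p := fun p => by
    obtain ⟨⟨x, hx⟩⟩ := (hc p).nonempty
    exact ⟨x, hx⟩
  choose r hr using hne
  choose a b hab hab' using fun i => small_connected G' (g i) (hg2 i) (hgc i)
  have hamem : ∀ i, a i ∈ g i := fun i => by rw [hab i]; exact Or.inl rfl
  have hbmem : ∀ i, b i ∈ g i := fun i => by rw [hab i]; exact Or.inr rfl
  -- the used vertices
  let R : Fin t → Set V' := fun i => if π (a i) = π (b i) then {a i} else {a i, b i}
  let F : Fin t → Set V := fun i => if π (a i) = π (b i) then φ (a i) else {r (a i), r (b i)}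
  have hRg : ∀ i, R i ⊆ g i := by
    intro i p hp
    simp only [R] at hp
    split_ifs at hp with h
    · rw [Set.mem_singleton_iff] at hp
      rw [hp]; exact hamem i
    · rcases hp with hp | hp
      · rw [hp]; exact hamem i
      · rw [Set.mem_singleton_iff] at hp
        rw [hp]; exact hbmem i
  have hFR : ∀ i, ∀ u ∈ F i, ∃ p ∈ R i, u ∈ φ p := by
    intro i u hu
    simp only [F] at hu
    simp only [R]
    split_ifs at hu ⊢ with h
    · exact ⟨a i, rfl, hu⟩
    · rcases hu with hu | hu
      · rw [hu]; exact ⟨a i, Or.inl rfl, hr _⟩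
      · rw [Set.mem_singleton_iff] at hu
        rw [hu]; exact ⟨b i, Or.inr rfl, hr _⟩
  have hRF : ∀ i, ∀ p ∈ R i, ∃ u ∈ F i, u ∈ φ p := by
    intro i p hp
    simp only [R] at hp
    simp only [F]
    split_ifs at hp ⊢ with h
    · rw [Set.mem_singleton_iff] at hp
      rw [hp]
      exact ⟨r (a i), hr _, hr _⟩
    · rcases hp with hp | hp
      · rw [hp]; exact ⟨r (a i), Or.inl rfl, hr _⟩
      · rw [Set.mem_singleton_iff] at hp
        rw [hp]; exact ⟨r (b i), Or.inr rfl, hr _⟩
  -- every adjacency can be realised by used vertices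
  have hrep : ∀ i, ∀ p ∈ g i, ∀ q, q ∉ g i → G'.Adj p q → ∃ p' ∈ R i, G'.Adj p' q := by
    intro i p hp q hq hpq
    by_cases h : π (a i) = π (b i)
    · refine ⟨a i, by simp only [R, if_pos h, Set.mem_singleton_iff], ?_⟩
      have hpa : π p = π (a i) := by
        rw [hab i] at hp
        rcases hp with hp | hp
        · rw [hp]
        · rw [Set.mem_singleton_iff] at hp
          rw [hp]; exact h.symm
      have h1 := (hI p q).1 hpq
      refine (hI _ _).2 ⟨fun h2 => hq (h2 ▸ hamem i), ?_⟩
      rw [← hpa]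
      exact h1.2
    · refine ⟨p, ?_, hpq⟩
      simp only [R, if_neg h]
      rw [← hab i]
      exact hp
  have hother : ∀ i, π (a i) ≠ π (b i) → ∀ p ∈ R i, ∃ p' ∈ R i, B.Adj (π p) (π p') := by
    intro i h p hp
    simp only [R, if_neg h] at hp ⊢
    have hadj : B.Adj (π (a i)) (π (b i)) := by
      rcases hab' i with h1 | h1
      · exact absurd (by rw [h1]) h
      · rcases ((hI _ _).1 h1).2 with h2 | h2
        · exact absurd h2 h
        · exact h2
    rcases hp with hp | hp
    · rw [hp]; exact ⟨b i, Or.inr rfl, hadj⟩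
    · rw [Set.mem_singleton_iff] at hp
      rw [hp]; exact ⟨a i, Or.inl rfl, hadj.symm⟩
  refine ⟨F, ?_, ?_, ?_, ?_⟩
  · intro i
    simp only [F]
    split_ifs with h
    · exact hs _
    · refine (Set.encard_insert_le _ _).trans ?_
      rw [Set.encard_singleton]
      norm_num
  · intro i
    by_cases h : π (a i) = π (b i)
    · have e : F i = φ (a i) := by simp only [F, if_pos h]
      rw [e]; exact hc _
    · have e : F i = {r (a i), r (b i)} := by simp only [F, if_neg h]
      rw [e]
      have hadj : B.Adj (π (a i)) (π (b i)) := by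
        rcases hab' i with h1 | h1
        · exact absurd (by rw [h1]) h
        · rcases ((hI _ _).1 h1).2 with h2 | h2
          · exact absurd h2 h
          · exact h2
      have h3 : G.Adj (r (a i)) (r (b i)) := hdiff _ _ hadj _ (hr _) _ (hr _)
      exact SimpleGraph.induce_pair_connected_of_adj h3
  · intro i j hij
    rw [Set.disjoint_left]
    intro u hu hu'
    obtain ⟨p, hp, hup⟩ := hFR i u hu
    obtain ⟨q, hq, huq⟩ := hFR j u hu'
    have hpq : p ≠ q := by
      rintro rfl
      exact (Set.disjoint_left.1 (hgd i j hij)) (hRg i hp) (hRg j hq)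
    exact (Set.disjoint_left.1 (hd p q hpq)) hup huq
  · intro i j hij
    obtain ⟨p, hp, q, hq, hpq⟩ := hga i j hij
    have hdisj := Set.disjoint_left.1 (hgd i j hij)
    obtain ⟨p', hp', hpq'⟩ := hrep i p hp q (fun h => hdisj h hq) hpq
    obtain ⟨q', hq', hqp'⟩ := hrep j q hq p' (fun h => hdisj (hRg i hp') h) hpq'.symm
    have hadj' : G'.Adj p' q' := hqp'.symm
    have h1 := (hI _ _).1 hadj'
    obtain ⟨u, hu, hup⟩ := hRF i p' hp'
    obtain ⟨v, hv, hvq⟩ := hRF j q' hq'
    rcases h1.2 with h2 | h2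
    · by_cases hi : π (a i) = π (b i)
      · by_cases hj : π (a j) = π (b j)
        · have ei : F i = φ (a i) := by simp only [F, if_pos hi]
          have ej : F j = φ (a j) := by simp only [F, if_pos hj]
          have ep : p' = a i := by simpa only [R, if_pos hi, Set.mem_singleton_iff] using hp'
          have eq : q' = a j := by simpa only [R, if_pos hj, Set.mem_singleton_iff] using hq'
          rw [ei, ej]
          rw [ep, eq] at h1 h2
          exact hsame _ _ h1.1 h2
        · obtain ⟨q'', hq'', hB⟩ := hother j hj q' hq'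
          obtain ⟨w, hw, hwq⟩ := hRF j q'' hq''
          rw [← h2] at hB
          exact ⟨u, hu, w, hw, hdiff _ _ hB _ hup _ hwq⟩
      · obtain ⟨p'', hp'', hB⟩ := hother i hi p' hp'
        obtain ⟨w, hw, hwp⟩ := hRF i p'' hp''
        rw [h2] at hB
        exact ⟨w, hw, v, hv, (hdiff _ _ hB _ hvq _ hwp).symm⟩
    · exact ⟨u, hu, v, hv, hdiff _ _ h2 _ hup _ hvq⟩

end lift

/-- **Substitution**: `G` arises from a good `B` by substituting graphs with `had₂ ≥ χ`. -/
theorem subst2 {V W : Type} [Finite V] (G : SimpleGraph V) (B : SimpleGraph W) (hB : Good B)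
    (π : V → W) (hG : ∀ x y, π x ≠ π y → (G.Adj x y ↔ B.Adj (π x) (π y)))
    (hfib : ∀ b : W, ∀ j : ℕ, ¬ (G.induce {x | π x = b}).Colorable j →
      SM (G.induce {x | π x = b}) (j + 1))
    (k : ℕ) (hk : ¬ G.Colorable k) : SM G (k + 1) := by
  classical
  have := Fintype.ofFinite V
  have hc : ∀ b : W, ∃ c : ℕ, ColIn G {x | π x = b} c ∧ SMIn G {x | π x = b} c := by
    intro b
    have hex : ∃ c, (G.induce {x | π x = b}).Colorable c :=
      ⟨_, (G.induce {x | π x = b}).colorable_of_fintype⟩
    refine ⟨Nat.find hex, (colIn_iff _ _ _).1 (Nat.find_spec hex), smIn_of_induce G _ _ ?_⟩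
    rcases Nat.eq_zero_or_pos (Nat.find hex) with h0 | h0
    · rw [h0]
      exact ⟨fun _ => ∅, fun i => i.elim0, fun i => i.elim0, fun i => i.elim0, fun i => i.elim0⟩
    · have h1 := Nat.find_min hex (m := Nat.find hex - 1) (by omega)
      have h2 := hfib b _ h1
      rwa [Nat.sub_add_cancel h0] at h2
  choose c hκ hf using hc
  choose κ hκ1 hκ2 using hκ
  choose f hfs hf2 hfc hfd hfa using hf
  have : Fintype (Set.range π) := Fintype.ofFinite _
  let V' : Type := Σ b : Set.range π, Fin (c b.1)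
  let π' : V' → W := fun p => p.1.1
  let G' : SimpleGraph V' :=
    { Adj := fun p q => p ≠ q ∧ (π' p = π' q ∨ B.Adj (π' p) (π' q))
      symm := ⟨fun p q h => ⟨h.1.symm, h.2.imp Eq.symm (fun e => e.symm)⟩⟩
      loopless := ⟨fun p h => h.1 rfl⟩ }
  have hI : Inf G' B π' := fun _ _ => Iff.rfl
  have hG' : ¬ G'.Colorable k := by
    rintro ⟨γ⟩
    apply hk
    let p : V → V' := fun x => ⟨⟨π x, Set.mem_range_self x⟩, ⟨κ (π x) x, hκ1 (π x) x rfl⟩⟩
    refine ⟨SimpleGraph.Coloring.mk (fun x => γ (p x)) ?_⟩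
    intro x y hxy
    apply γ.valid
    by_cases hxy' : π x = π y
    · refine ⟨?_, Or.inl hxy'⟩
      intro h
      have h2 : (fun q : V' => (q.2 : ℕ)) (p x) = (fun q : V' => (q.2 : ℕ)) (p y) := by rw [h]
      have h3 : κ (π x) x = κ (π y) y := h2
      rw [← hxy'] at h3
      exact hκ2 (π x) x rfl y hxy'.symm hxy h3
    · refine ⟨?_, Or.inr ((hG x y hxy').1 hxy)⟩
      intro h
      have h2 : (fun q : V' => (q.1.1 : W)) (p x) = (fun q : V' => (q.1.1 : W)) (p y) := by rw [h]
      exact hxy' h2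
  have hSM : SM G' (k + 1) := hB V' G' π' hI k hG'
  refine lift_sm G G' B π' (fun p => f p.1.1 p.2) hI (fun p => hf2 _ _) (fun p => hfc _ _)
    ?_ ?_ ?_ _ hSM
  · rintro ⟨b, i⟩ ⟨b', i'⟩ hne
    by_cases hb : b = b'
    · subst hb
      exact hfd b.1 i i' (fun h => hne (by rw [h]))
    · rw [Set.disjoint_left]
      intro x hx hx'
      apply hb
      apply Subtype.ext
      exact (hfs b.1 i hx : π x = b.1).symm.trans (hfs b'.1 i' hx')
  · rintro ⟨b, i⟩ ⟨b', i'⟩ hne hb
    have hb' : b = b' := Subtype.ext hb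
    subst hb'
    exact hfa b.1 i i' (fun h => hne (by rw [h]))
  · rintro ⟨b, i⟩ ⟨b', i'⟩ hadj x hx y hy
    have hx' : π x = b.1 := hfs b.1 i hx
    have hy' : π y = b'.1 := hfs b'.1 i' hy
    have hadj' : B.Adj b.1 b'.1 := hadj
    refine (hG x y ?_).2 ?_
    · rw [hx', hy']; exact hadj'.ne
    · rw [hx', hy']; exact hadj'

/-- goodness is preserved by substitution -/
theorem good_subst {V W : Type} (G : SimpleGraph V) (B : SimpleGraph W) (hB : Good B) (π : V → W)
    (hG : ∀ x y, π x ≠ π y → (G.Adj x y ↔ B.Adj (π x) (π y)))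
    (hfib : ∀ b : W, Good (G.induce {x | π x = b})) : Good G := by
  intro V₀ _ G₀ ρ hρ k hk
  refine subst2 G₀ B hB (fun x => π (ρ x)) ?_ ?_ k hk
  · intro x y hxy
    rw [hρ]
    constructor
    · rintro ⟨_, h | h⟩
      · exact absurd (by rw [h]) hxy
      · exact (hG _ _ hxy).1 h
    · intro h
      exact ⟨fun e => hxy (by rw [e]), Or.inr ((hG _ _ hxy).2 h)⟩
  · intro b j hj
    refine hfib b _ (G₀.induce {x | π (ρ x) = b}) (fun x => ⟨ρ x.1, x.2⟩) ?_ j hj
    intro x y
    simp only [SimpleGraph.comap_adj, Function.Embedding.subtype_apply, Subtype.mk.injEq]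
    rw [hρ]
    constructor
    · rintro ⟨h1, h2⟩
      exact ⟨fun e => h1 (by rw [e]), h2⟩
    · rintro ⟨h1, h2⟩
      exact ⟨fun e => h1 (Subtype.ext e), h2⟩

end N684.HS
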