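import Pool.Agent.N684.HS.B

/-! Gluing along a clique preserves goodness. -/

set_option autoImplicit false

namespace N684.HS

open Finset N684.HI

open Classical in
lemma glue_colorable {V : Type} [Finite V] (G : SimpleGraph V) (S T : Set V)
    (hST : ∀ x, x ∈ S ∨ x ∈ T) (hcl : ∀ x ∈ S, x ∈ T → ∀ y ∈ S, y ∈ T → x ≠ y → G.Adj x y)
    (hno : ∀ x ∈ S, x ∉ T → ∀ y ∈ T, y ∉ S → ¬ G.Adj x y) (k : ℕ)
    (hS : (G.induce S).Colorable k) (hT : (G.induce T).Colorable k) : G.Colorable k := by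
  have := Fintype.ofFinite V
  obtain ⟨γ1⟩ := hS
  obtain ⟨γ2⟩ := hT
  let C : Finset V := Finset.univ.filter (fun x => x ∈ S ∧ x ∈ T)
  let k2 : {x // x ∈ C} → Fin k := fun x => γ2 ⟨x.1, (Finset.mem_filter.1 x.2).2.2⟩
  let k1 : {x // x ∈ C} → Fin k := fun x => γ1 ⟨x.1, (Finset.mem_filter.1 x.2).2.1⟩
  have hadj : ∀ x y : {x // x ∈ C}, x ≠ y → G.Adj x.1 y.1 := fun x y hxy =>
    hcl x.1 (Finset.mem_filter.1 x.2).2.1 (Finset.mem_filter.1 x.2).2.2 y.1
      (Finset.mem_filter.1 y.2).2.1 (Finset.mem_filter.1 y.2).2.2 (fun h => hxy (Subtype.ext h))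
  have h2inj : Function.Injective k2 := by
    intro x y h
    by_contra hxy
    exact γ2.valid (v := ⟨x.1, (Finset.mem_filter.1 x.2).2.2⟩)
      (w := ⟨y.1, (Finset.mem_filter.1 y.2).2.2⟩) (by simpa using hadj x y hxy) h
  have h1inj : Function.Injective k1 := by
    intro x y h
    by_contra hxy
    exact γ1.valid (v := ⟨x.1, (Finset.mem_filter.1 x.2).2.1⟩)
      (w := ⟨y.1, (Finset.mem_filter.1 y.2).2.1⟩) (by simpa using hadj x y hxy) h
  obtain ⟨g, hg⟩ : ∃ g : Fin k → Fin k, Function.Injective g ∧ ∀ x, g (k2 x) = k1 x := by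
    by_cases hne : Nonempty {x // x ∈ C}
    · let f : Fin k → Fin k := fun c => k1 (Function.invFun k2 c)
      have hf : ∀ x, f (k2 x) = k1 x := fun x => by
        simp only [f]
        rw [Function.leftInverse_invFun h2inj]
      obtain ⟨e, he⟩ := Finset.exists_equiv_extend_of_card_eq (α := Fin k) (β := Fin k)
        (t := Finset.univ) (by simp) (s := Finset.univ.image k2) (f := f)
        (Finset.subset_univ _) (by
          intro c hc c' hc' h
          obtain ⟨x, -, rfl⟩ := Finset.mem_image.1 (Finset.mem_coe.1 hc)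
          obtain ⟨y, -, rfl⟩ := Finset.mem_image.1 (Finset.mem_coe.1 hc')
          rw [hf, hf] at h
          rw [h1inj h])
      refine ⟨fun c => (e c).1, fun c c' h => e.injective (Subtype.ext h), fun x => ?_⟩
      rw [← hf x]
      exact he _ (Finset.mem_image.2 ⟨x, Finset.mem_univ _, rfl⟩)
    · exact ⟨id, Function.injective_id, fun x => absurd ⟨x⟩ hne⟩
  refine ⟨SimpleGraph.Coloring.mk (fun x => if h : x ∈ S then γ1 ⟨x, h⟩ else
    g (γ2 ⟨x, (hST x).resolve_left h⟩)) ?_⟩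
  have key : ∀ x y, x ∈ S → y ∉ S → G.Adj x y → ∀ (h : x ∈ S) (h' : y ∈ T),
      γ1 ⟨x, h⟩ ≠ g (γ2 ⟨y, h'⟩) := by
    intro x y hx hy hxy h h'
    by_cases hxT : x ∈ T
    · have hxC : x ∈ C := Finset.mem_filter.2 ⟨Finset.mem_univ _, hx, hxT⟩
      have e1 : g (γ2 ⟨x, hxT⟩) = γ1 ⟨x, h⟩ := hg.2 ⟨x, hxC⟩
      rw [← e1]
      intro e2
      exact γ2.valid (v := ⟨x, hxT⟩) (w := ⟨y, h'⟩) (by simpa using hxy) (hg.1 e2)
    · exact absurd hxy (hno x hx hxT y h' hy)
  intro x y hxy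
  by_cases hx : x ∈ S <;> by_cases hy : y ∈ S
  · simp only [hx, hy, dif_pos]
    exact γ1.valid (by simpa using hxy)
  · simp only [hx, hy, dif_pos, dif_neg, not_false_iff]
    exact key x y hx hy hxy hx _
  · simp only [hx, hy, dif_pos, dif_neg, not_false_iff]
    exact (key y x hy hx hxy.symm hy _).symm
  · simp only [hx, hy, dif_neg, not_false_iff]
    intro h
    exact γ2.valid (v := ⟨x, (hST x).resolve_left hx⟩) (w := ⟨y, (hST y).resolve_left hy⟩)
      (by simpa using hxy) (hg.1 h)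

lemma inf_induce {V W : Type} (G : SimpleGraph V) (B : SimpleGraph W) (π : V → W)
    (hI : Inf G B π) (S : Set W) :
    Inf (G.induce (π ⁻¹' S)) (B.induce S) (fun x => ⟨π x.1, x.2⟩) := by
  intro x y
  simp only [SimpleGraph.comap_adj, Function.Embedding.subtype_apply, Subtype.mk.injEq]
  rw [hI]
  constructor
  · rintro ⟨h1, h2⟩
    exact ⟨fun e => h1 (by rw [e]), h2⟩
  · rintro ⟨h1, h2⟩
    exact ⟨fun e => h1 (Subtype.ext e), h2⟩

theorem good_glue {W : Type} (B : SimpleGraph W) (S T : Set W) (hST : ∀ x, x ∈ S ∨ x ∈ T)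
    (hcl : ∀ x ∈ S, x ∈ T → ∀ y ∈ S, y ∈ T → x ≠ y → B.Adj x y)
    (hno : ∀ x ∈ S, x ∉ T → ∀ y ∈ T, y ∉ S → ¬ B.Adj x y)
    (hS : Good (B.induce S)) (hT : Good (B.induce T)) : Good B := by
  intro V _ G π hI k hk
  by_cases h1 : (G.induce (π ⁻¹' S)).Colorable k
  · by_cases h2 : (G.induce (π ⁻¹' T)).Colorable k
    · refine absurd (glue_colorable G (π ⁻¹' S) (π ⁻¹' T) (fun x => hST (π x)) ?_ ?_ k h1 h2) hk
      · intro x hx hx' y hy hy' hxy
        refine (hI x y).2 ⟨hxy, ?_⟩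
        by_cases h : π x = π y
        · exact Or.inl h
        · exact Or.inr (hcl _ hx hx' _ hy hy' h)
      · intro x hx hx' y hy hy' hxy
        rcases ((hI x y).1 hxy).2 with h | h
        · apply hx'
          show π x ∈ T
          rw [h]
          exact hy
        · exact hno _ hx hx' _ hy hy' h
    · exact sm_of_smIn G _ _ _ (smIn_of_induce G _ _
        (hT _ _ _ (inf_induce G B π hI T) k h2)) le_rfl
  · exact sm_of_smIn G _ _ _ (smIn_of_induce G _ _
      (hS _ _ _ (inf_induce G B π hI S) k h1)) le_rfl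

/-- a good finite graph satisfies `had₂ ≥ χ` -/
theorem good_self {V : Type} [Finite V] (G : SimpleGraph V) (h : Good G) (k : ℕ)
    (hk : ¬ G.Colorable k) : SM G (k + 1) := by
  refine h V G id (fun x y => ?_) k hk
  constructor
  · intro e
    exact ⟨e.ne, Or.inr e⟩
  · rintro ⟨h1, h2 | h2⟩
    · exact absurd h2 h1
    · exact h2

end N684.HS
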