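import Pool.Agent.N684.HS.C

/-! Reduction to prime graphs without clique cutsets. -/

set_option autoImplicit false

namespace N684.HS

open Finset N684.HI

/-- Every homogeneous set of vertices is trivial. -/
def Prim {W : Type} (B : SimpleGraph W) : Prop :=
  ∀ M : Set W, (∀ x, x ∉ M → ∀ y ∈ M, ∀ z ∈ M, (B.Adj x y ↔ B.Adj x z)) →
    (∀ y ∈ M, ∀ z ∈ M, y = z) ∨ ∀ x, x ∈ M

/-- There is no clique cutset (the empty one included). -/
def NCC {W : Type} (B : SimpleGraph W) : Prop :=
  ∀ S T : Set W, (∀ x, x ∈ S ∨ x ∈ T) → (∀ x ∈ S, x ∈ T → ∀ y ∈ S, y ∈ T → x ≠ y → B.Adj x y) →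
    (∀ x ∈ S, x ∉ T → ∀ y ∈ T, y ∉ S → ¬ B.Adj x y) → (∀ x, x ∈ S) ∨ ∀ x, x ∈ T

lemma good_embed {V W : Type} (A : SimpleGraph V) (B : SimpleGraph W) (f : V → W)
    (hf : Function.Injective f) (hadj : ∀ x y, A.Adj x y ↔ B.Adj (f x) (f y)) (hB : Good B) :
    Good A := by
  intro V₀ _ G π hI k hk
  refine hB V₀ G (fun x => f (π x)) (fun x y => ?_) k hk
  rw [hI, hadj, hf.eq_iff]

open Classical in
theorem reduce {W : Type} [Finite W] (B : SimpleGraph W)
    (H : ∀ U : Set W, Prim (B.induce U) → NCC (B.induce U) → Good (B.induce U)) :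
    ∀ (n : ℕ) (U : Set W), U.ncard = n → Good (B.induce U) := by
  intro n
  induction n using Nat.strong_induction_on with
  | _ n ih =>
  intro U hU
  have hlt : ∀ (U' : Set W), U' ⊆ U → (∃ x ∈ U, x ∉ U') → Good (B.induce U') := by
    intro U' h1 h2
    obtain ⟨x, hx, hx'⟩ := h2
    refine ih U'.ncard ?_ U' rfl
    rw [← hU]
    exact Set.ncard_lt_ncard ⟨h1, fun h => hx' (h hx)⟩ (Set.toFinite _)
  by_cases hp : Prim (B.induce U)
  · by_cases hc : NCC (B.induce U)
    · exact H U hp hc
    · unfold NCC at hc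
      push Not at hc
      obtain ⟨S, T, h1, h2, h3, ⟨s, hs⟩, ⟨t, ht⟩⟩ := hc
      have hsub : ∀ X : Set U, (∃ x, x ∉ X) → Good ((B.induce U).induce X) := by
        rintro X ⟨x, hx⟩
        refine good_embed _ (B.induce (Subtype.val '' X)) (fun y => ⟨y.1.1, ⟨y.1, y.2, rfl⟩⟩) ?_ ?_
          (hlt _ ?_ ⟨x.1, x.2, ?_⟩)
        · intro y z h
          exact Subtype.ext (Subtype.ext (congrArg (fun w : (Subtype.val '' X : Set W) => w.1) h))
        · intro y z
          simp
        · rintro _ ⟨y, _, rfl⟩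
          exact y.2
        · rintro ⟨y, hy, hyx⟩
          exact hx (by rwa [← Subtype.ext hyx])
      exact good_glue (B.induce U) S T h1 h2 h3 (hsub S ⟨s, hs⟩) (hsub T ⟨t, ht⟩)
  · unfold Prim at hp
    push Not at hp
    obtain ⟨M, hM, ⟨m, hm, m', hm', hmm⟩, ⟨w, hw⟩⟩ := hp
    -- the quotient
    let U' : Set W := {x | x ∈ U ∧ ∀ h : x ∈ U, (⟨x, h⟩ : U) ∈ M → x = m.1}
    have hU' : Good (B.induce U') := by
      refine hlt U' (fun x hx => hx.1) ⟨m'.1, m'.2, ?_⟩
      intro h
      exact hmm (Subtype.ext (h.2 m'.2 hm')).symm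
    have hMg : Good (B.induce (Subtype.val '' M)) := by
      refine hlt _ ?_ ⟨w.1, w.2, ?_⟩
      · rintro _ ⟨y, _, rfl⟩
        exact y.2
      · rintro ⟨y, hy, hyx⟩
        exact hw (by rwa [← Subtype.ext hyx])
    let π : U → U' := fun x => if h : x ∈ M then ⟨m.1, m.2, fun _ _ => rfl⟩ else
      ⟨x.1, x.2, fun _ h' => absurd h' h⟩
    have hπM : ∀ x : U, x ∈ M → (π x).1 = m.1 := fun x hx => by simp only [π, dif_pos hx]
    have hπN : ∀ x : U, x ∉ M → (π x).1 = x.1 := fun x hx => by simp only [π, dif_neg hx]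
    refine good_subst (B.induce U) (B.induce U') hU' π ?_ ?_
    · intro x y hxy
      show B.Adj x.1 y.1 ↔ B.Adj (π x).1 (π y).1
      by_cases hx : x ∈ M <;> by_cases hy : y ∈ M
      · exact absurd (Subtype.ext ((hπM x hx).trans (hπM y hy).symm)) hxy
      · rw [hπM x hx, hπN y hy]
        have h := hM y hy x hx m hm
        have h' : B.Adj y.1 x.1 ↔ B.Adj y.1 m.1 := h
        rw [B.adj_comm x.1, B.adj_comm m.1]
        exact h'
      · rw [hπN x hx, hπM y hy]
        exact hM x hx y hy m hm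
      · rw [hπN x hx, hπN y hy]
    · intro b
      by_cases hb : b.1 = m.1
      · refine good_embed _ (B.induce (Subtype.val '' M)) (fun y => ⟨y.1.1, ⟨y.1, ?_, rfl⟩⟩) ?_ ?_ hMg
        · by_contra hy
          have h1 : (π y.1).1 = b.1 := congrArg Subtype.val y.2
          rw [hπN _ hy, hb] at h1
          exact hy (by rwa [Subtype.ext h1])
        · intro y z h
          exact Subtype.ext (Subtype.ext (congrArg (fun w : (Subtype.val '' M : Set W) => w.1) h))
        · intro y z
          simp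
      · have hy : ∀ y : {x : U | π x = b}, y.1.1 = b.1 := by
          intro y
          have h1 : (π y.1).1 = b.1 := congrArg Subtype.val y.2
          by_cases h : y.1 ∈ M
          · rw [hπM _ h] at h1
            exact absurd h1.symm hb
          · rwa [hπN _ h] at h1
        refine good_embed _ (B.induce U') (fun _ => b) ?_ ?_ hU'
        · intro y z _
          exact Subtype.ext (Subtype.ext ((hy y).trans (hy z).symm))
        · intro y z
          show B.Adj y.1.1 z.1.1 ↔ B.Adj b.1 b.1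
          rw [hy y, hy z]

theorem reduce_self {W : Type} [Finite W] (B : SimpleGraph W)
    (H : ∀ U : Set W, Prim (B.induce U) → NCC (B.induce U) → Good (B.induce U)) : Good B := by
  refine good_embed B (B.induce Set.univ) (fun x => ⟨x, trivial⟩) ?_ ?_ (reduce B H _ _ rfl)
  · intro x y h
    exact congrArg (fun w : (Set.univ : Set W) => w.1) h
  · intro x y
    simp

end N684.HS
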