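import Pool.Agent.N684.HS.D

/-! Graphs without long induced odd cycles: induced subgraphs and clique inflations. -/

set_option autoImplicit false

namespace N684.HS

open Finset N684.HI

/-- no induced odd cycle of length at least seven -/
def LOF {V : Type} (G : SimpleGraph V) : Prop :=
  ∀ k : ℕ, 3 ≤ k → IsEmpty (SimpleGraph.Embedding (SimpleGraph.cycleGraph (2 * k + 1)) G)

lemma fin_one_val (n : ℕ) : ((1 : Fin (n + 2)) : ℕ) = 1 := rfl

lemma fin_two_val (n : ℕ) (hn : 2 ≤ n) : ((1 + 1 : Fin (n + 2)) : ℕ) = 2 := by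
  rw [Fin.val_add, fin_one_val]
  exact Nat.mod_eq_of_lt (by omega)

lemma fin_three_val (n : ℕ) (hn : 2 ≤ n) : ((1 + 1 + 1 : Fin (n + 2)) : ℕ) = 3 := by
  rw [Fin.val_add, fin_two_val n hn, fin_one_val]
  exact Nat.mod_eq_of_lt (by omega)

lemma cyc_no_twin (n : ℕ) (hn : 2 ≤ n) (i j : Fin (n + 2))
    (h : (SimpleGraph.cycleGraph (n + 2)).Adj i j) :
    ∃ l, l ≠ i ∧ l ≠ j ∧ ¬ ((SimpleGraph.cycleGraph (n + 2)).Adj i l ↔
      (SimpleGraph.cycleGraph (n + 2)).Adj j l) := by
  have n1 : (1 + 1 : Fin (n + 2)) ≠ 0 := by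
    intro e
    have e2 := congrArg Fin.val e
    rw [fin_two_val n hn] at e2
    exact absurd e2 (by simp)
  have n2 : (1 : Fin (n + 2)) ≠ 0 := by
    intro e
    have e2 := congrArg Fin.val e
    rw [fin_one_val] at e2
    exact absurd e2 (by simp)
  have n3 : (1 + 1 + 1 : Fin (n + 2)) ≠ 0 := by
    intro e
    have e2 := congrArg Fin.val e
    rw [fin_three_val n hn] at e2
    exact absurd e2 (by simp)
  have key : ∀ a : Fin (n + 2), (a + 1 + 1) ≠ a ∧ (a + 1 + 1) ≠ a + 1 ∧
      (SimpleGraph.cycleGraph (n + 2)).Adj (a + 1) (a + 1 + 1) ∧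
      ¬ (SimpleGraph.cycleGraph (n + 2)).Adj a (a + 1 + 1) := by
    intro a
    refine ⟨?_, ?_, ?_, ?_⟩
    · intro e
      rw [add_assoc] at e
      exact n1 (add_eq_left.1 e)
    · intro e
      exact n2 (add_eq_left.1 e)
    · rw [SimpleGraph.cycleGraph_adj]
      right
      rw [add_sub_cancel_left]
    · rw [SimpleGraph.cycleGraph_adj]
      rintro (e | e)
      · apply n3
        have e' : a - (a + (1 + 1)) = 1 := by rw [← add_assoc]; exact e
        rw [sub_add_cancel_left] at e'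
        calc (1 + 1 + 1 : Fin (n + 2)) = (1 + 1) + (-(1 + 1)) := by rw [e']
          _ = 0 := add_neg_cancel _
      · rw [add_assoc, add_sub_cancel_left] at e
        exact n2 (add_eq_left.1 e)
  rw [SimpleGraph.cycleGraph_adj] at h
  rcases h with h | h
  · have hi : i = j + 1 := by rw [← h]; abel
    obtain ⟨k1, k2, k3, k4⟩ := key j
    refine ⟨j + 1 + 1, ?_, k1, ?_⟩
    · rw [hi]; exact k2
    · rw [hi]
      intro hh
      exact k4 (hh.1 k3)
  · have hj : j = i + 1 := by rw [← h]; abel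
    obtain ⟨k1, k2, k3, k4⟩ := key i
    refine ⟨i + 1 + 1, k1, ?_, ?_⟩
    · rw [hj]; exact k2
    · rw [hj]
      intro hh
      exact k4 (hh.2 k3)

lemma lof_inf {V W : Type} (G : SimpleGraph V) (B : SimpleGraph W) (π : V → W)
    (hI : Inf G B π) (hB : LOF B) : LOF G := by
  intro k hk
  refine ⟨fun e => ?_⟩
  obtain ⟨q, rfl⟩ : ∃ q, k = q + 3 := ⟨k - 3, by omega⟩
  have hinj : Function.Injective (fun i => π (e i)) := by
    intro i j hij
    by_contra hne
    have hij' : π (e i) = π (e j) := hij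
    have hadj : G.Adj (e i) (e j) := (hI _ _).2 ⟨fun h => hne (e.injective h), Or.inl hij'⟩
    have hadj' : (SimpleGraph.cycleGraph (2 * q + 5 + 2)).Adj i j := e.map_rel_iff.1 hadj
    obtain ⟨l, h1, h2, h3⟩ := cyc_no_twin (2 * q + 5) (by omega) i j hadj'
    apply h3
    have g1 : (SimpleGraph.cycleGraph (2 * q + 5 + 2)).Adj i l ↔ G.Adj (e i) (e l) :=
      e.map_rel_iff.symm
    have g2 : (SimpleGraph.cycleGraph (2 * q + 5 + 2)).Adj j l ↔ G.Adj (e j) (e l) :=
      e.map_rel_iff.symm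
    rw [g1, g2, hI, hI, hij']
    constructor
    · rintro ⟨_, h⟩
      exact ⟨fun h' => h2 (e.injective h').symm, h⟩
    · rintro ⟨_, h⟩
      exact ⟨fun h' => h1 (e.injective h').symm, h⟩
  refine (hB (q + 3) (by omega)).false ⟨⟨fun i => π (e i), hinj⟩, ?_⟩
  intro i j
  show B.Adj (π (e i)) (π (e j)) ↔ _
  rw [← e.map_rel_iff, hI]
  constructor
  · intro h
    exact ⟨fun h' => h.ne (congrArg π h'), Or.inr h⟩
  · rintro ⟨h1, h2 | h2⟩
    · exact absurd (by rw [hinj h2]) h1
    · exact h2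

lemma lof_induce {V : Type} (G : SimpleGraph V) (hG : LOF G) (U : Set V) : LOF (G.induce U) := by
  intro k hk
  refine ⟨fun e => (hG k hk).false (e.trans (SimpleGraph.Embedding.induce U))⟩

end N684.HS
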